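import Mathlib

/-!
# A pointwise inequality for the binary entropy
-/

set_option autoImplicit false

open Real

namespace Helper20.ADD

lemma negMulLog_one_sub_le {x : ℝ} (h1 : x < 1) : negMulLog (1 - x) ≤ x := by
  have h : 0 < 1 - x := by linarith
  have h2 := Real.one_sub_inv_le_log_of_pos h
  unfold negMulLog
  have h3 : (1 - x) * (1 - (1 - x)⁻¹) ≤ (1 - x) * Real.log (1 - x) :=
    mul_le_mul_of_nonneg_left h2 h.le
  have h4 : (1 - x) * (1 - (1 - x)⁻¹) = -x := by
    have : (1 - x) * (1 - x)⁻¹ = 1 := mul_inv_cancel₀ h.ne'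
    linear_combination (-1 : ℝ) * this
  nlinarith [h3, h4]

lemma small {p q : ℝ} (hp : 0 ≤ p) (hp' : p ≤ 1 / 4) (hq : 0 ≤ q) (hq' : q ≤ 1 / 4) :
    binEntropy p + binEntropy q - binEntropy (p * (1 - q) + q * (1 - p)) ≤ 3 * (p + q) := by
  rcases hp.eq_or_lt with rfl | hp0
  · simp
    linarith
  rcases hq.eq_or_lt with rfl | hq0
  · simp
    linarith
  set s := p * (1 - q) + q * (1 - p) with hs
  have hs0 : 0 < s := by
    have := mul_pos hp0 (show 0 < 1 - q by linarith)
    have := mul_pos hq0 (show 0 < 1 - p by linarith)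
    linarith
  have hss : s = p + q - 2 * (p * q) := by rw [hs]; ring
  have hpq : 0 < p * q := mul_pos hp0 hq0
  have hs1 : s ≤ p + q := by linarith
  have e1 := negMulLog_one_sub_le (x := p) (by linarith)
  have e2 := negMulLog_one_sub_le (x := q) (by linarith)
  have e3 : 0 ≤ negMulLog (1 - s) := negMulLog_nonneg (by linarith) (by linarith)
  have e4 : s * Real.log s ≤ s * Real.log (p + q) :=
    mul_le_mul_of_nonneg_left (Real.log_le_log hs0 hs1) hs0.le
  have hsum : 0 < p + q := by linarith
  -- the term with `p q`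
  have e5 : -(2 * (p * q)) * Real.log (p + q) ≤ (p + q) / 2 := by
    have h1 := Real.one_sub_inv_le_log_of_pos hsum
    have h2 : -Real.log (p + q) ≤ (p + q)⁻¹ := by linarith
    have h3 : (2 * (p * q)) * -Real.log (p + q) ≤ (2 * (p * q)) * (p + q)⁻¹ :=
      mul_le_mul_of_nonneg_left h2 (by positivity)
    have h4 : (2 * (p * q)) * (p + q)⁻¹ ≤ (p + q) / 2 := by
      rw [← div_eq_mul_inv, div_le_iff₀ hsum]
      nlinarith [sq_nonneg (p - q)]
    linarith
  -- the main term
  have e6 : -(p * Real.log p) - q * Real.log q + (p + q) * Real.log (p + q) ≤ p + q := by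
    have h1 := Real.log_le_sub_one_of_pos (show 0 < (p + q) / p by positivity)
    have h2 := Real.log_le_sub_one_of_pos (show 0 < (p + q) / q by positivity)
    rw [Real.log_div hsum.ne' hp0.ne'] at h1
    rw [Real.log_div hsum.ne' hq0.ne'] at h2
    have h3 := mul_le_mul_of_nonneg_left h1 hp0.le
    have h4 := mul_le_mul_of_nonneg_left h2 hq0.le
    have h5 : p * ((p + q) / p - 1) = q := by field_simp; ring
    have h6 : q * ((p + q) / q - 1) = p := by field_simp; ring
    rw [h5] at h3
    rw [h6] at h4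
    linarith
  have e7 : s * Real.log (p + q) =
      (p + q) * Real.log (p + q) + -(2 * (p * q)) * Real.log (p + q) := by
    rw [hss]; ring
  simp only [binEntropy_eq_negMulLog_add_negMulLog_one_sub]
  have n1 : negMulLog p = -(p * Real.log p) := by unfold negMulLog; ring
  have n2 : negMulLog q = -(q * Real.log q) := by unfold negMulLog; ring
  have n3 : negMulLog s = -(s * Real.log s) := by unfold negMulLog; ring
  rw [n1, n2, n3]
  linarith

lemma mul_le_binEntropy {t p : ℝ} (ht : t < 1) (hp : 0 ≤ p) (hpt : p ≤ t) :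
    p * -Real.log t ≤ binEntropy p := by
  rcases hp.eq_or_lt with rfl | hp0
  · simp
  rw [binEntropy_eq_negMulLog_add_negMulLog_one_sub]
  have h1 : 0 ≤ negMulLog (1 - p) := negMulLog_nonneg (by linarith) (by linarith)
  have h2 : p * -Real.log t ≤ negMulLog p := by
    have := Real.log_le_log hp0 hpt
    have := mul_le_mul_of_nonneg_left this hp0.le
    unfold negMulLog
    linarith
  linarith

lemma binEntropy_mono {p q : ℝ} (hp : 0 ≤ p) (h : p ≤ q) (hq : q ≤ 1 / 2) :
    binEntropy p ≤ binEntropy q :=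
  binEntropy_strictMonoOn.monotoneOn ⟨hp, by linarith⟩ ⟨hp.trans h, by linarith⟩ h

/-- For every `e > 0` there is `C` with
`h(p ⋆ q) ≥ (1 - e) (h(p) + h(q)) - C h(p) h(q)` for all `p, q` in `[0, 1]`. -/
theorem pointwise (e : ℝ) (he : 0 < e) : ∃ C : ℝ, 0 ≤ C ∧ ∀ p q : ℝ, 0 ≤ p → p ≤ 1 → 0 ≤ q →
    q ≤ 1 → (1 - e) * (Real.binEntropy p + Real.binEntropy q) -
      C * (Real.binEntropy p * Real.binEntropy q) ≤
        Real.binEntropy (p * (1 - q) + q * (1 - p)) := by
  set t : ℝ := min (1 / 4) (Real.exp (-(3 / e))) with ht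
  have ht0 : 0 < t := lt_min (by norm_num) (Real.exp_pos _)
  have ht1 : t ≤ 1 / 4 := min_le_left _ _
  have ht2 : 3 / e ≤ -Real.log t := by
    have : Real.log t ≤ -(3 / e) := by
      rw [← Real.log_exp (-(3 / e))]
      exact Real.log_le_log ht0 (min_le_right _ _)
    linarith
  have hht : 0 < binEntropy t := binEntropy_pos ht0 (by linarith)
  refine ⟨(binEntropy t)⁻¹, by positivity, ?_⟩
  -- the case of one large argument
  have big : ∀ p q : ℝ, 0 ≤ p → p ≤ 1 / 2 → t ≤ q → q ≤ 1 / 2 →
      (1 - e) * (binEntropy p + binEntropy q) - (binEntropy t)⁻¹ * (binEntropy p * binEntropy q) ≤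
        binEntropy (p * (1 - q) + q * (1 - p)) := by
    intro p q hp hp' hq hq'
    have h1 : binEntropy q ≤ binEntropy (p * (1 - q) + q * (1 - p)) := by
      apply binEntropy_mono (ht0.le.trans hq)
      · nlinarith
      · nlinarith
    have h2 : 0 ≤ binEntropy p := binEntropy_nonneg hp (by linarith)
    have h3 : 0 ≤ binEntropy q := binEntropy_nonneg (ht0.le.trans hq) (by linarith)
    have h4 : binEntropy t ≤ binEntropy q := binEntropy_mono ht0.le hq hq'
    have h5 : binEntropy p ≤ (binEntropy t)⁻¹ * (binEntropy p * binEntropy q) := by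
      have : 1 ≤ (binEntropy t)⁻¹ * binEntropy q := by
        rw [inv_mul_eq_div, le_div_iff₀ hht]; linarith
      nlinarith
    nlinarith
  have main : ∀ p q : ℝ, 0 ≤ p → p ≤ 1 / 2 → 0 ≤ q → q ≤ 1 / 2 →
      (1 - e) * (binEntropy p + binEntropy q) - (binEntropy t)⁻¹ * (binEntropy p * binEntropy q) ≤
        binEntropy (p * (1 - q) + q * (1 - p)) := by
    intro p q hp hp' hq hq'
    rcases le_total t q with h | h
    · exact big p q hp hp' h hq'
    rcases le_total t p with h' | h'
    · have := big q p hq hq' h' hp'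
      have e1 : q * (1 - p) + p * (1 - q) = p * (1 - q) + q * (1 - p) := by ring
      rw [e1] at this
      have e2 : binEntropy q * binEntropy p = binEntropy p * binEntropy q := by ring
      rw [e2] at this
      linarith
    have h1 := small hp (h'.trans ht1) hq (h.trans ht1)
    have h2 := mul_le_binEntropy (t := t) (by linarith) hp h'
    have h3 := mul_le_binEntropy (t := t) (by linarith) hq h
    have h4 : 0 ≤ binEntropy p := binEntropy_nonneg hp (by linarith)
    have h5 : 0 ≤ binEntropy q := binEntropy_nonneg hq (by linarith)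
    have h6 : 3 * (p + q) ≤ e * (binEntropy p + binEntropy q) := by
      have h7 : (p + q) * (3 / e) ≤ binEntropy p + binEntropy q := by
        have := mul_le_mul_of_nonneg_left ht2 (show 0 ≤ p + q by linarith)
        linarith
      have h8 := mul_le_mul_of_nonneg_left h7 he.le
      have h9 : e * ((p + q) * (3 / e)) = 3 * (p + q) := by field_simp
      linarith
    have h7 : 0 ≤ (binEntropy t)⁻¹ * (binEntropy p * binEntropy q) := by positivity
    linarith
  intro p q hp hp' hq hq'
  -- reduction to `p, q ≤ 1 / 2`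
  have r1 : ∀ p q : ℝ, 0 ≤ p → p ≤ 1 → 0 ≤ q → q ≤ 1 / 2 →
      (1 - e) * (binEntropy p + binEntropy q) - (binEntropy t)⁻¹ * (binEntropy p * binEntropy q) ≤
        binEntropy (p * (1 - q) + q * (1 - p)) := by
    intro p q hp hp' hq hq'
    rcases le_total p (1 / 2) with h | h
    · exact main p q hp h hq hq'
    have := main (1 - p) q (by linarith) (by linarith) hq hq'
    rw [binEntropy_one_sub] at this
    have e1 : (1 - p) * (1 - q) + q * (1 - (1 - p)) = 1 - (p * (1 - q) + q * (1 - p)) := by ring
    rwa [e1, binEntropy_one_sub] at this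
  rcases le_total q (1 / 2) with h | h
  · exact r1 p q hp hp' hq h
  have := r1 p (1 - q) hp hp' (by linarith) (by linarith)
  rw [binEntropy_one_sub] at this
  have e1 : p * (1 - (1 - q)) + (1 - q) * (1 - p) = 1 - (p * (1 - q) + q * (1 - p)) := by ring
  rwa [e1, binEntropy_one_sub] at this

end Helper20.ADD
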